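import Mathlib

/-! Eulerian orientations of a simple graph and the estimate of Pauling. -/

namespace Pool.Agent.MP_7c8df0_mp.H36

/-- The number of Eulerian orientations of `G`. An orientation gives each edge `e` a head `t e`,
one of its two ends. It is Eulerian if at each vertex `v` the number of edges with head `v` equals
the number of edges at `v` whose head is the other end. -/
noncomputable def eo {V : Type} (G : SimpleGraph V) : ℕ :=
  Nat.card {t : G.edgeSet → V // (∀ e, t e ∈ e.1) ∧
    ∀ v, Nat.card {e // t e = v} = Nat.card {e // v ∈ e.1 ∧ t e ≠ v}}

/-- The estimate of Pauling: the product over the vertices of `binom(d, d/2) / 2^(d/2)`, where `d`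
is the degree of the vertex. -/
noncomputable def pauling {V : Type} [Fintype V] (G : SimpleGraph V) [DecidableRel G.Adj] : ℝ :=
  ∏ v, ((G.degree v).choose (G.degree v / 2) : ℝ) / 2 ^ (G.degree v / 2)

end Pool.Agent.MP_7c8df0_mp.H36
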