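import Pool.Agent.MP_7c8df0_mp.H36.One

/-! The vertices are averaged one after the other. -/

namespace Pool.Agent.MP_7c8df0_mp.H36

open Finset Real Function

variable {V A E : Type} [LinearOrder V] [NormedAddCommGroup E]

theorem seq [Fintype V] [Fintype A] [Nonempty A] (f : V → (V → A) → ℝ) (B : V → ℝ)
    (h0 : ∀ w θ, 0 ≤ f w θ) (hB : ∀ w, 0 ≤ B w)
    (h1 : ∀ w a θ t, w < a → f w (update θ a t) = f w θ)
    (h2 : ∀ w θ, ∑ t, f w (update θ w t) ≤ Fintype.card A * B w) (s : Finset V) :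
    ∑ θ, ∏ w ∈ s, f w θ ≤ Fintype.card (V → A) * ∏ w ∈ s, B w := by
  induction s using Finset.induction_on_max with
  | empty => simp
  | insert a s ha ih =>
    have na : a ∉ s := fun h => lt_irrefl _ (ha a h)
    have N : (0 : ℝ) < Fintype.card A := by exact_mod_cast Fintype.card_pos
    have e := Equiv.sum_comp (Involutive.toPerm (fun p : (V → A) × A => (update p.1 a p.2, p.1 a))
      fun p => by simp) fun p => f a p.1 * ∏ w ∈ s, f w p.1
    simp only [Fintype.sum_prod_type, Involutive.coe_toPerm, sum_const, card_univ, nsmul_eq_mul,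
      ← mul_sum, fun θ t => prod_congr rfl fun w hw => h1 w a θ t (ha w hw), ← sum_mul] at e
    simp only [prod_insert na]
    refine le_of_mul_le_mul_left (e.symm.trans_le ((sum_le_sum fun θ _ => mul_le_mul_of_nonneg_right
      (h2 a θ) (prod_nonneg fun w _ => h0 w θ)).trans ?_)) N
    rw [← mul_sum, mul_assoc, mul_left_comm _ (B a) (∏ w ∈ s, B w)]
    exact mul_le_mul_of_nonneg_left (mul_le_mul_of_nonneg_left ih (hB a)) N.le

theorem tele {M : Type} [AddCommMonoid M] (x : V → M) (F : M → ℝ) (s : Finset V) :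
    ∑ w ∈ s, (F (∑ u ∈ s with u < w, x u + x w) - F (∑ u ∈ s with u < w, x u)) =
      F (∑ u ∈ s, x u) - F 0 := by
  induction s using Finset.induction_on_max with
  | empty => simp
  | insert a s ha ih =>
    have na : a ∉ s := fun h => lt_irrefl _ (ha a h)
    rw [sum_insert na, sum_insert na, filter_insert, if_neg (lt_irrefl a), filter_true_of_mem ha,
      (sum_congr rfl fun w hw => by rw [filter_insert, if_neg (ha w hw).not_gt]).trans ih,
      add_comm (x a)]
    ring

/-- the borrowed fraction -/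
noncomputable def eta (d : ℝ) : ℝ := min (1 / 8) (64032 / d)

theorem eta_nonneg {d : ℝ} (h : 0 ≤ d) : 0 ≤ eta d := le_min (by norm_num) (by positivity)

/-- the least slack on a path to a field of length `r` in `c` steps -/
noncomputable def VV (c r : ℝ) : ℝ := (log (c + 4) - log (r + 4) - 1 + (r + 4) / (c + 4)) / 2

/-- the indicator of a tiny field -/
noncomputable def TT (r : ℝ) : ℝ := if r < 1 / 2 then 1 else 0

/-- the potential -/
noncomputable def pot (d : ℝ) (p : ℝ × E) : ℝ :=
  (1 / 4 - 1601 / d) * (p.1 - ‖p.2‖) - VV p.1 ‖p.2‖ + log (1 + ‖p.2‖) / (2 * d) -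
    LL d / 2 * TT ‖p.2‖ - 6402 / d * (1 / (‖p.2‖ + 1))

/-- the cost of an edge -/
noncomputable def cost (d d' : ℝ) (h : E) : ℝ :=
  -log ((1 - eta d) / (‖h‖ + 1) * ‖h‖ + 1 / d') / (2 * (d' + 4)) + 3200 / d' * (1 / (‖h‖ + 1)) ^ 2

theorem pV {c r r' : ℝ} (r0 : 0 ≤ r) (r1 : 0 ≤ r') (hc : r ≤ c) (h : r ≤ r' + 1) :
    VV (c + 1) r' - VV c r ≤ (1 + r - r') ^ 2 / (8 * (r + 2)) := by
  have c0 := r0.trans hc
  have a := log_le_sub_one_of_pos (x := (c + 1 + 4) * (r + 4) / ((r' + 4) * (c + 4))) (by positivity)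
  rw [log_div (by positivity) (by positivity), log_mul (by positivity) (by positivity),
    log_mul (by positivity) (by positivity)] at a
  obtain ⟨q, hq⟩ : ∃ q, q = 1 - (r' + 4) / (c + 1 + 4) := ⟨_, rfl⟩
  have b : (c + 1 + 4) * (r + 4) / ((r' + 4) * (c + 4)) - 1 + (r' + 4) / (c + 1 + 4) -
      (r + 4) / (c + 4) = (1 + r - r' - q) * q * ((c + 5) / ((c + 4) * (r' + 4))) := by
    rw [hq]
    field_simp
    ring
  have e : (c + 5) / ((c + 4) * (r' + 4)) ≤ 1 / (r + 2) := by
    rw [div_le_div_iff₀ (by positivity) (by positivity)]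
    nlinarith
  have f := mul_le_mul (show (1 + r - r' - q) * q ≤ (1 + r - r') ^ 2 / 4 by
    nlinarith [sq_nonneg (1 + r - r' - 2 * q)]) e (by positivity) (by positivity)
  rw [show (1 + r - r') ^ 2 / (8 * (r + 2)) = (1 + r - r') ^ 2 / 4 * (1 / (r + 2)) / 2 by
    field_simp
    ring, VV, VV]
  linarith

theorem pC {d d' r r' : ℝ} (hd : 0 < d) (h' : d ≤ d') (r0 : 0 ≤ r) (r1 : 0 ≤ r') (a : r' ≤ r + 1)
    (b : 1 ≤ r' + r) : -log ((1 - eta d) / (r + 1) * r + 1 / d') / (2 * (d' + 4)) ≤ LL d / 2 * TT r +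
      (2 * eta d + (log (1 + r') - log (1 + r)) + (1 + r - r') + 2 * (1 / (r + 1)) ^ 2) / (2 * d) := by
  have e0 := eta_nonneg hd.le
  have e1 : eta d ≤ 1 / 8 := min_le_left _ _
  have d0 := hd.trans_le h'
  have w0 : 0 ≤ (1 - eta d) / (r + 1) * r :=
    mul_nonneg (div_nonneg (by linarith) (by positivity)) r0
  unfold TT
  split_ifs with c
  · have := log_le_log (by positivity) (show 1 + r ≤ 1 + r' by linarith)
    refine le_add_of_le_of_nonneg ?_ (div_nonneg (by nlinarith [sq_nonneg (1 / (r + 1))])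
      (by positivity))
    have f := log_le_log (x := (d' + 1)⁻¹) (y := (1 - eta d) / (r + 1) * r + 1 / d') (by positivity)
      (le_add_of_nonneg_of_le w0 (by rw [one_div]; gcongr; linarith))
    have g := LL_anti hd h'
    have i := LL_mul d0.le
    have j := LL_nonneg d0.le
    rw [log_inv] at f
    rw [div_le_iff₀ (by positivity)]
    nlinarith
  · have c' : 0 < r := by linarith
    have f := log_le_log (x := (1 - eta d) / (r + 1) * r) (y := _ + 1 / d')
      (mul_pos (div_pos (by linarith) (by positivity)) c') (le_add_of_nonneg_right (by positivity))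
    rw [log_mul (div_pos (by linarith) (by positivity)).ne' c'.ne',
      log_div (by linarith) (by positivity)] at f
    have g := one_sub_inv_le_log_of_pos (x := 1 - eta d) (by linarith)
    have g' : (1 - eta d)⁻¹ ≤ 1 + 2 * eta d := by
      rw [inv_le_iff_one_le_mul₀ (by linarith)]
      nlinarith
    have i := log_le_sub_one_of_pos (x := (r + 1) ^ 2 / (r * (r + 2))) (by positivity)
    have i' : (r + 1) ^ 2 / (r * (r + 2)) - 1 ≤ 2 * (1 / (r + 1)) ^ 2 := by
      rw [div_sub_one (by positivity), div_pow, ← mul_div_assoc,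
        div_le_div_iff₀ (by positivity) (by positivity)]
      nlinarith
    have j := log_le_sub_one_of_pos (x := (r + 2) / (1 + r')) (by positivity)
    have j' : (r + 2) / (1 + r') - 1 ≤ 1 + r - r' := by
      rw [div_sub_one (by positivity), div_le_iff₀ (by positivity)]
      nlinarith
    rw [log_div (by positivity) (by positivity)] at i j
    rw [log_pow, log_mul (by positivity) (by positivity), Nat.cast_ofNat] at i
    have k := log_le_log c' (show r ≤ r + 1 by linarith)
    rw [mul_zero, zero_add, add_comm 1 r]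
    exact div_le_div₀ (by linarith) (by linarith) (by positivity) (by linarith)

variable [InnerProductSpace ℝ E]

theorem slot {d d' c : ℝ} (hd : 1 ≤ d) (h' : d ≤ d') {h x : E} (hx : ‖x‖ = 1) (hc : ‖h‖ ≤ c) :
    (1 - eta d) / (‖h‖ + 1) * (‖h‖ - inner ℝ h x) / 4 + cost d d' h ≤
      pot d ((c, h) + (1, x)) - pot d (c, h) + 10 ^ 10 / d ^ 2 := by
  have a := norm_add_le h x
  have a1 := norm_le_add_norm_add h x
  have a2 := norm_le_add_norm_add x h
  have b := norm_add_sq_real h x
  rw [add_comm x h] at a2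
  rw [hx] at a a1 a2 b
  have r0 := norm_nonneg h
  have r1 := norm_nonneg (h + x)
  have d0 : 0 < d := by linarith
  have e0 := eta_nonneg d0.le
  have e2 : eta d ≤ 64032 / d := min_le_right _ _
  have L0 := LL_nonneg d0.le
  simp only [cost, pot, Prod.mk_add_mk]
  set r := ‖h‖
  set r' := ‖h + x‖
  have q0 := pV r0 r1 hc a1
  have q2 := pC d0 h' r0 r1 a a2
  obtain ⟨D, hD⟩ : ∃ D, D = 1 + r - r' := ⟨_, rfl⟩
  rw [← hD] at q0 q2
  have D0 : 0 ≤ D := by linarith
  have q1 : (1 - eta d) / (r + 1) * (r - inner ℝ h x) / 4 ≤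
      D / 4 - D ^ 2 / (8 * (r + 1)) - eta d * D / 8 := by
    have : (1 - eta d) / (r + 1) * (r - inner ℝ h x) / 4 = D / 4 - D ^ 2 / (8 * (r + 1)) -
        eta d * D / 8 - eta d * D * r' / (8 * (r + 1)) := by
      rw [show inner ℝ h x = (r' ^ 2 - r ^ 2 - 1) / 2 by linarith, hD]
      field_simp
      ring
    exact this.trans_le (sub_le_self _ (by positivity))
  have p3 : (1 / (r + 1)) ^ 2 ≤ 2 * (1 / (r + 1) - 1 / (r' + 1)) + 2 * D := by
    have : 1 / (r' + 1) ≤ 1 / (r + 2) + (1 + r - r') := by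
      rw [div_add' _ _ _ (by positivity), div_le_div_iff₀ (by positivity) (by positivity)]
      nlinarith [mul_nonneg (mul_nonneg r0 r1) (sub_nonneg.2 a), mul_nonneg r1 (sub_nonneg.2 a),
        mul_nonneg r0 (sub_nonneg.2 a)]
    have : (1 / (r + 1)) ^ 2 ≤ 2 * (1 / (r + 1) - 1 / (r + 2)) := by
      rw [div_sub_div _ _ (by positivity) (by positivity), div_pow, ← mul_div_assoc,
        div_le_div_iff₀ (by positivity) (by positivity)]
      nlinarith
    linarith
  have q3 := mul_le_mul_of_nonneg_left p3 (show 0 ≤ 3201 / d by positivity)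
  have q4 := mul_le_mul_of_nonneg_right (show 3200 / d' ≤ 3200 / d by gcongr)
    (sq_nonneg (1 / (r + 1)))
  have q5 : LL d / 2 * TT r' ≤ D ^ 2 / (8 * (r + 1)) - D ^ 2 / (8 * (r + 2)) + 7350 ^ 2 / d ^ 2 := by
    rw [show D ^ 2 / (8 * (r + 1)) - D ^ 2 / (8 * (r + 2)) = D ^ 2 / (8 * (r + 1) * (r + 2)) by
      field_simp
      ring, TT]
    split_ifs with c
    · rcases le_total (LL d) (1 / 35) with e | e
      · refine le_add_of_le_of_nonneg ((le_div_iff₀ (by positivity)).2 ?_) (by positivity)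
        have : (r + 1) * (r + 2) ≤ 35 / 4 := by nlinarith
        nlinarith
      · refine le_add_of_nonneg_of_le (by positivity) ((le_div_iff₀ (by positivity)).2 ?_)
        have : d ≤ 7350 := by
          rcases le_total 2 d with g | g
          · linarith [LL_small g (c := 35) (by norm_num) e]
          · linarith
        nlinarith [LL_le d0.le]
    · rw [mul_zero]
      positivity
  have q6 : 8004 / d * D ≤ eta d * D / 8 + 128 * 8004 ^ 2 / d ^ 2 := by
    rcases le_total (64032 / d) (1 / 8) with e | e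
    · rw [eta, min_eq_right e]
      exact le_add_of_le_of_nonneg (le_of_eq (by ring)) (by positivity)
    · refine le_add_of_nonneg_of_le (by positivity) ?_
      rw [le_div_iff₀ d0] at e
      rw [div_mul_eq_mul_div, div_le_div_iff₀ d0 (by positivity)]
      nlinarith [mul_le_mul_of_nonneg_right (show D ≤ 2 by linarith) (sq_nonneg d)]
  have q7 := div_le_div_of_nonneg_right e2 d0.le
  have q8 : 0 ≤ D / d := by positivity
  have q9 : 0 ≤ 1 / d ^ 2 := by positivity
  rw [show c + 1 - r' = c - r + D by linarith]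
  generalize D ^ 2 / (8 * (r + 1)) = A1 at *
  generalize D ^ 2 / (8 * (r + 2)) = A2 at *
  generalize -log _ / (2 * (d' + 4)) = A3 at *
  generalize (1 - eta d) / (r + 1) * (r - inner ℝ h x) / 4 = A4 at *
  generalize 1 / (r + 1) = s at *
  generalize 1 / (r' + 1) = s' at *
  ring_nf at q0 q2 q3 q4 q5 q6 q7 q8 q9 ⊢
  linarith

omit [InnerProductSpace ℝ E] in
theorem vert {d : ℝ} (hd : d = 0 ∨ 1 ≤ d) {k : ℝ} (hk : k ≤ d) {h : E} (hh : ‖h‖ ≤ k) :
    800 / (d + 1) + 1600 / d * (k - ‖h‖) + (k + 4) / (2 * (d + 4)) * (log (k + 4) - log (‖h‖ + 4)) +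
      (pot d (k, h) - pot d (0 : ℝ × E) + k * (10 ^ 10 / d ^ 2)) ≤
      (k - ‖h‖) / 4 + (log (d + 1) + 3 * 10 ^ 10) / (d + 1) := by
  have r0 := norm_nonneg h
  rcases hd with rfl | hd
  · have : k = 0 := by linarith
    have : ‖h‖ = 0 := by linarith
    norm_num [*, pot, LL]
  have d0 : 0 < d := by linarith
  have k0 : 0 < k + 4 := by linarith
  have L0 := LL_nonneg d0.le
  have p0 : (k + 4) / (2 * (d + 4)) * (log (k + 4) - log (‖h‖ + 4)) ≤
      VV k ‖h‖ + (k - ‖h‖) / d := by
    have a := log_le_sub_one_of_pos (x := (‖h‖ + 4) / (k + 4)) (by positivity)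
    rw [log_div (by positivity) k0.ne'] at a
    have b : (k + 4) / (2 * (d + 4)) * (log (k + 4) - log (‖h‖ + 4)) =
        (k + 4) / (d + 4) * VV k ‖h‖ + (k - ‖h‖) / (2 * (d + 4)) := by
      rw [VV]
      field_simp
      ring
    rw [b]
    exact add_le_add (mul_le_of_le_one_left (by rw [VV]; linarith)
      (div_le_one_of_le₀ (by linarith) (by positivity)))
      (div_le_div_of_nonneg_left (by linarith) d0 (by linarith))
  have p1 : log (1 + ‖h‖) / (2 * d) ≤ LL d / 2 := by
    rw [LL, div_div, mul_comm d]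
    exact div_le_div_of_nonneg_right (log_le_log (by positivity) (by linarith)) (by positivity)
  have p2 : 0 ≤ LL d / 2 * TT ‖h‖ := mul_nonneg (by positivity) (by unfold TT; positivity)
  have p3 : 0 ≤ 6402 / d * (1 / (‖h‖ + 1)) := by positivity
  have p4 : k * (10 ^ 10 / d ^ 2) ≤ 10 ^ 10 / d := by
    rw [← mul_div_assoc, div_le_div_iff₀ (by positivity) d0]
    nlinarith
  have p5 : LL d ≤ (log (d + 1) + 1) / (d + 1) := by
    rw [le_div_iff₀ (by positivity), mul_add, LL_mul d0.le]
    linarith [LL_le d0.le]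
  have p6 : 1 / d ≤ 2 / (d + 1) := by
    rw [div_le_div_iff₀ d0 (by positivity)]
    linarith
  have p7 : 0 ≤ 1 / (d + 1) := by positivity
  have p8 : VV 0 0 = 0 := by simp [VV]
  have p9 : TT 0 = 1 := by simp [TT]
  simp only [pot, Prod.fst_zero, Prod.snd_zero, norm_zero, p8, p9, add_zero, log_one]
  generalize (k + 4) / (2 * (d + 4)) * _ = A1 at *
  generalize log (1 + ‖h‖) / (2 * d) = A2 at *
  generalize k * (10 ^ 10 / d ^ 2) = A3 at *
  generalize 6402 / d * (1 / (‖h‖ + 1)) = A4 at *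
  ring_nf at p0 p2 p4 p5 p6 p7 ⊢
  linarith

variable [Fintype V] (G : SimpleGraph V) [DecidableRel G.Adj]

/-- the field at `v` made by the neighbours before `w` -/
noncomputable def hf (x : V → E) (w v : V) : E := ∑ u ∈ G.neighborFinset v with u < w, x u

/-- the weight of a later neighbour -/
noncomputable def wt (g : V → E) (v : V) : ℝ := (1 - eta (G.degree v)) / (‖g v‖ + 1)

/-- the loss at a vertex -/
noncomputable def loss (g : V → E) (w : V) : ℝ :=
  800 / (G.degree w + 1) + 1600 / G.degree w * (#{u ∈ G.neighborFinset w | u < w} - ‖g w‖) +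
    (#{u ∈ G.neighborFinset w | u < w} + 4) / (2 * (G.degree w + 4)) *
      (log (#{u ∈ G.neighborFinset w | u < w} + 4) - log (‖g w‖ + 4)) +
    ∑ v ∈ G.neighborFinset w with w < v, cost (G.degree v) (G.degree w) (g v)

/-- the energy of a vertex -/
noncomputable def en (g : V → E) (w : V) (y : E) : ℝ :=
  (‖g w‖ - inner ℝ (g w) y) / 4 +
    ∑ v ∈ G.neighborFinset w with w < v, wt G g v * (‖g v‖ - inner ℝ (g v) y) / 4

theorem avg [Fintype A] [Nonempty A] {x : A → E} {K k : ℕ} (hx : Mom x K) (hk : k ≤ K) {w : V}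
    (hw : G.degree w = 2 * k) (g : V → E) (hg : ‖g w‖ ≤ #{u ∈ G.neighborFinset w | u < w}) :
    ∑ a, exp (-(en G g w (x a) + loss G g w)) ≤ Fintype.card A * bb k := by
  have hd : (2 * k : ℝ) = #{u ∈ G.neighborFinset w | u < w} + #{v ∈ G.neighborFinset w | w < v} := by
    have := card_filter_add_card_filter_not (s := G.neighborFinset w) (· < w)
    rw [G.card_neighborFinset_eq_degree, hw, filter_congr (q := (w < ·)) fun v hv =>
      not_lt.trans ⟨fun h => lt_of_le_of_ne h ((G.mem_neighborFinset _ _).1 hv).ne, le_of_lt⟩] at this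
    exact_mod_cast this.symm
  have e0 := fun v => eta_nonneg (d := G.degree v) (by positivity)
  have e1 : ∀ v, eta (G.degree v) ≤ 1 / 8 := fun v => min_le_left _ _
  have w0 : ∀ v, 0 ≤ wt G g v := fun v => div_nonneg (by linarith [e1 v]) (by positivity)
  have w1 : ∀ v, wt G g v * ‖g v‖ = (1 - eta (G.degree v)) * (1 - 1 / (‖g v‖ + 1)) := fun v => by
    rw [wt]
    field_simp
    ring
  have s0 : ∀ v, 0 ≤ 1 / (‖g v‖ + 1) := fun v => by positivity
  set S := {v ∈ G.neighborFinset w | w < v}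
  set c : ℝ := ((#{u ∈ G.neighborFinset w | u < w} : ℕ) : ℝ)
  have c0 : 0 ≤ c := by positivity
  have S0 : (0 : ℝ) ≤ #S := by positivity
  have r0 := norm_nonneg (g w)
  have t0 : 0 ≤ ∑ v ∈ S, wt G g v * ‖g v‖ := sum_nonneg fun v _ => mul_nonneg (w0 v) (norm_nonneg _)
  have t1 : ∑ v ∈ S, wt G g v * ‖g v‖ ≤ #S := by
    simpa using sum_le_card_nsmul S _ 1 fun v _ => (w1 v).trans_le (by
      nlinarith [e0 v, e1 v, s0 v])
  have t2 : 3 / 4 * #S ≤ ∑ v ∈ S, wt G g v * ‖g v‖ + 2 * ∑ v ∈ S, (1 / (‖g v‖ + 1)) ^ 2 := by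
    rw [mul_sum, ← sum_add_distrib, mul_comm, ← nsmul_eq_mul]
    refine card_nsmul_le_sum S _ _ fun v _ => ?_
    rw [w1]
    nlinarith [e0 v, e1 v, s0 v, sq_nonneg (1 / (‖g v‖ + 1) - 1 / 4)]
  have t4 : 0 ≤ ∑ v ∈ S, (1 / (‖g v‖ + 1)) ^ 2 := by positivity
  have t6 : loss G g w = 800 / (2 * k + 1) + 1600 / (2 * k) * (c - ‖g w‖ +
      2 * ∑ v ∈ S, (1 / (‖g v‖ + 1)) ^ 2) + ((c + 4) * (log (c + 4) - log (‖g w‖ + 4)) -
      ∑ v ∈ S, log (wt G g v * ‖g v‖ + 1 / (2 * k))) / (2 * (2 * k + 4)) := by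
    simp only [loss, cost, hw, sum_add_distrib, ← mul_sum, ← sum_div, sum_neg_distrib, Nat.cast_mul,
      Nat.cast_ofNat, S, c, wt]
    ring
  obtain ⟨R, hR⟩ : ∃ R, R = ‖g w‖ + ∑ v ∈ S, wt G g v * ‖g v‖ := ⟨_, rfl⟩
  have R0 : 0 ≤ R := by linarith
  have t7 : 400 / (R + 1) ≤ 800 / (2 * k + 1) + 1600 / (2 * k) * (c - ‖g w‖ +
      2 * ∑ v ∈ S, (1 / (‖g v‖ + 1)) ^ 2) := by
    rcases le_or_gt (k : ℝ) R with e | e
    · refine le_add_of_le_of_nonneg ?_ (mul_nonneg (by positivity) (by linarith))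
      rw [div_le_div_iff₀ (by positivity) (by positivity)]
      linarith
    · refine le_add_of_nonneg_of_le (by positivity) ((div_le_self (by norm_num) (by linarith)).trans ?_)
      rw [div_mul_eq_mul_div, le_div_iff₀ (by linarith)]
      linarith
  have t8 : (c + 4) * (log (‖g w‖ + 4) - log (c + 4)) + ∑ v ∈ S, log (wt G g v * ‖g v‖ + 1 / (2 * k)) ≤
      (2 * k + 4) * (log (R + 5) - log (2 * k + 4)) := by
    have l : ∀ y : ℝ, 0 < y → log y ≤ y * ((2 * k + 4) / (R + 5)) - 1 +
        (log (R + 5) - log (2 * k + 4)) := fun y hy => by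
      have := log_le_sub_one_of_pos (x := y * ((2 * k + 4) / (R + 5))) (by positivity)
      rw [log_mul hy.ne' (by positivity), log_div (by positivity) (by positivity)] at this
      linarith
    have a := mul_le_mul_of_nonneg_left (l ((‖g w‖ + 4) / (c + 4)) (by positivity))
      (show 0 ≤ c + 4 by positivity)
    rw [log_div (by positivity) (by positivity), mul_add, mul_sub (c + 4) (_ * _), ← mul_assoc,
      mul_div_cancel₀ _ (by positivity)] at a
    have b := sum_le_sum (s := S) fun v hv => l (wt G g v * ‖g v‖ + 1 / (2 * k))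
      (add_pos_of_nonneg_of_pos (mul_nonneg (w0 v) (norm_nonneg _)) (one_div_pos.2 (by
        have : (0 : ℝ) < #S := by exact_mod_cast card_pos.2 ⟨v, hv⟩
        linarith)))
    simp only [sum_add_distrib, sum_sub_distrib, ← sum_mul, sum_const, nsmul_eq_mul] at b
    have e : #S * (1 / (2 * k) : ℝ) ≤ 1 := by
      rw [mul_one_div]
      exact div_le_one_of_le₀ (by linarith) (by positivity)
    have f := mul_le_mul_of_nonneg_right e (show (0 : ℝ) ≤ (2 * k + 4) / (R + 5) by positivity)
    have i : (R + 5) * ((2 * k + 4) / (R + 5)) = 2 * k + 4 := mul_div_cancel₀ _ (by positivity)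
    generalize (2 * k + 4 : ℝ) / (R + 5) = A at *
    have j := congrArg (· * (log (R + 5) - log (2 * k + 4))) hd
    have j' := congrArg (· * A) hR
    linarith
  have := (ov hx hk (R := R) (H := g w + ∑ v ∈ S, wt G g v • g v)
    ((norm_add_le _ _).trans (hR ▸ add_le_add_right (norm_sum_le_of_le _ fun v _ => by
      rw [norm_smul, norm_of_nonneg (w0 v)]) _)) (by linarith)).trans
    (mul_le_mul_of_nonneg_left (mul_le_mul_of_nonneg_left (exp_le_exp.2 (show _ ≤ loss G g w by
      rw [t6, add_comm]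
      refine add_le_add t7 ((le_div_iff₀ (by positivity)).2 ?_)
      linarith)) (bb_pos k).le) (by positivity))
  rw [hR] at this
  simp only [neg_add, exp_add, ← sum_mul, exp_neg (loss G g w)]
  rw [mul_inv_le_iff₀ (exp_pos _), mul_assoc]
  refine le_trans (le_of_eq (sum_congr rfl fun a _ => congrArg exp ?_)) this
  simp only [en, inner_add_left, sum_inner, real_inner_smul_left, mul_sub, ← sum_div,
    sum_sub_distrib, S]
  ring

theorem pw (ho : ∀ w v, w < v → G.degree v ≤ G.degree w) {x : V → E}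
    (hx : ∀ v, ‖x v‖ = 1) :
    ∑ w, (en G (hf G x w) w (x w) + loss G (hf G x w) w) ≤
      ∑ v, (∑ u ∈ G.neighborFinset v with u < v, (1 - inner ℝ (x u) (x v)) / 4 +
        (log (G.degree v + 1) + 3 * 10 ^ 10) / (G.degree v + 1)) := by
  simp only [en, loss, add_add_add_comm _ (∑ v ∈ _, _), ← sum_add_distrib]
  rw [sum_add_distrib, sum_comm' (s' := fun v => {u ∈ G.neighborFinset v | u < v}) (t' := univ)
    fun w v => by simp [G.adj_comm w], ← sum_add_distrib]
  refine sum_le_sum fun v _ => ?_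
  set S := {u ∈ G.neighborFinset v | u < v}
  have e : ∀ w ∈ S, ∑ u ∈ S with u < w, ((1 : ℝ), x u) =
      ((#{u ∈ G.neighborFinset v | u < w} : ℝ), hf G x w v) := fun w hw => by
    rw [hf, filter_filter, filter_congr (q := (· < w)) fun u _ =>
      ⟨And.right, fun h => ⟨h.trans (mem_filter.1 hw).2, h⟩⟩]
    simp [← prod_mk_sum]
  have a := sum_le_sum (s := S) fun w hw => slot (d := G.degree v) (d' := G.degree w)
    (c := #{u ∈ G.neighborFinset v | u < w}) (h := hf G x w v)
    (by exact_mod_cast card_pos.2 ⟨w, (mem_filter.1 hw).1⟩)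
    (by exact_mod_cast ho w v (mem_filter.1 hw).2) (hx w)
    (by simpa [hx, hf] using norm_sum_le {u ∈ G.neighborFinset v | u < w} x)
  have c := (sum_congr rfl fun w hw => by rw [e w hw]).symm.trans
    (tele (fun u => ((1 : ℝ), x u)) (pot (G.degree v)) S)
  rw [sum_add_distrib (f := fun _ => _ - _), c, sum_const, nsmul_eq_mul, ← prod_mk_sum, sum_const,
    nsmul_eq_mul, mul_one] at a
  have b := vert (d := G.degree v) (k := #S) (h := ∑ u ∈ S, x u)
    (by exact_mod_cast (G.degree v).eq_zero_or_pos)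
    (by exact_mod_cast card_filter_le _ _) (by simpa [hx] using norm_sum_le S x)
  rw [← sum_div, sum_sub_distrib, ← sum_inner, sum_const, nsmul_eq_mul, mul_one]
  simp only [wt, show hf G x v v = ∑ u ∈ S, x u from rfl]
  linarith

theorem xy [Fintype A] [Nonempty A] {x : A → E} {K : ℕ} (hx : Mom x K)
    (hK : ∀ v, G.degree v / 2 ≤ K) (ev : ∀ v, Even (G.degree v))
    (ho : ∀ w v, w < v → G.degree v ≤ G.degree w) :
    ∑ θ : V → A, exp (-∑ v, ∑ u ∈ G.neighborFinset v with u < v,
      (1 - inner ℝ (x (θ u)) (x (θ v))) / 4) ≤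
      Fintype.card (V → A) * ((∏ v, bb (G.degree v / 2)) *
        exp (∑ v, (log (G.degree v + 1) + 3 * 10 ^ 10) / (G.degree v + 1))) := by
  have up : ∀ (θ : V → A) w a t, w ≤ a → hf G (x ∘ update θ a t) w = hf G (x ∘ θ) w :=
    fun θ w a t h => funext fun v => sum_congr rfl fun u hu => by
      rw [comp, update_of_ne ((mem_filter.1 hu).2.trans_le h).ne, comp]
  have := seq (fun w θ => exp (-(en G (hf G (x ∘ θ) w) w (x (θ w)) + loss G (hf G (x ∘ θ) w) w)))
    (fun v => bb (G.degree v / 2)) (fun _ _ => (exp_pos _).le) (fun _ => (bb_pos _).le)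
    (fun w a θ t h => by rw [up θ w a t h.le, update_of_ne h.ne]) (fun w θ => by
      simp only [up θ w w _ le_rfl, update_self]
      exact avg G hx (hK w) (Nat.two_mul_div_two_of_even (ev w)).symm _ (by
        simpa [hx.one, hf] using norm_sum_le {u ∈ G.neighborFinset w | u < w} (x ∘ θ))) univ
  rw [← mul_assoc]
  refine le_trans ?_ (mul_le_mul_of_nonneg_right this (exp_pos _).le)
  rw [sum_mul]
  refine sum_le_sum fun θ _ => ?_
  have := pw G ho (x := x ∘ θ) fun v => hx.one _
  rw [← exp_sum, ← exp_add, exp_le_exp, sum_neg_distrib]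
  rw [sum_add_distrib (s := univ) (g := fun v => _ / _)] at this
  simp only [comp] at this ⊢
  linarith

end Pool.Agent.MP_7c8df0_mp.H36
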