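import Pool.Agent.MP_7c8df0_mp.H36.Defs
import Pool.Agent.MP_7c8df0_mp.H36.Seq

/-! The Fourier formula and the two bounds. -/

namespace Pool.Agent.MP_7c8df0_mp.H36

open Finset Real Function ComplexConjugate

section Roots

variable {N : ℕ} [NeZero N]

/-- the roots of unity -/
noncomputable def zz (a : ZMod N) : ℂ := ZMod.stdAddChar a

theorem zz_neg (a : ZMod N) : zz (-a) = conj (zz a) := AddChar.map_neg_eq_conj _ _

theorem zz_norm (a : ZMod N) : ‖zz a‖ = 1 := AddChar.norm_apply _ _

theorem orth {i j : ℕ} (hi : i < N) (hj : j < N) :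
    ∑ a : ZMod N, zz a ^ i * conj (zz a) ^ j = if i = j then (N : ℂ) else 0 := by
  have := AddChar.sum_mulShift ((i : ZMod N) - j) (ZMod.isPrimitive_stdAddChar N)
  simp only [sub_eq_zero, ZMod.natCast_eq_natCast_iff', Nat.mod_eq_of_lt hi, Nat.mod_eq_of_lt hj,
    ZMod.card, Nat.cast_ite, Nat.cast_zero] at this
  refine (sum_congr rfl fun a _ => ?_).trans this
  rw [← zz_neg, zz, zz, ← AddChar.map_nsmul_eq_pow, ← AddChar.map_nsmul_eq_pow,
    ← AddChar.map_add_eq_mul]
  exact congrArg _ (by ring)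

theorem mom {K : ℕ} (hK : 4 * K < N) : Mom (fun a : ZMod N => zz a ^ 2) K := by
  refine ⟨fun a => by rw [norm_pow, zz_norm, one_pow], fun u hu m hm => Complex.ofReal_injective ?_⟩
  have e : ∀ {y : ℂ}, ‖y‖ = 1 → y * conj y = 1 := fun h => by
    rw [Complex.mul_conj', h]
    simp
  have : ∀ a : ZMod N, ((‖zz a ^ 2 + u‖ ^ (2 * m) : ℝ) : ℂ) = ∑ j ∈ range (2 * m + 1),
      zz a ^ (2 * j) * conj (zz a) ^ (2 * m) * (u ^ (2 * m - j) * conj u ^ m * (2 * m).choose j) := by
    intro a
    have h : conj (zz a ^ 2 + u) = (zz a ^ 2 + u) * (conj (zz a) ^ 2 * conj u) := by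
      rw [map_add, map_pow]
      linear_combination (-conj u * (zz a * conj (zz a) + 1)) * e (zz_norm a) -
        conj (zz a) ^ 2 * e hu
    rw [pow_mul, Complex.ofReal_pow, Complex.ofReal_pow, ← Complex.mul_conj', h, ← mul_assoc, mul_pow,
      ← sq, ← pow_mul, add_pow, sum_mul]
    exact sum_congr rfl fun j _ => by ring
  rw [Complex.ofReal_sum, sum_congr rfl fun a _ => this a, sum_comm, sum_eq_single m]
  · rw [← sum_mul, orth (by omega) (by omega), if_pos rfl, show 2 * m - m = m by omega, ← mul_pow,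
      e hu, Nat.centralBinom]
    simp
  · intro j hj c
    rw [← sum_mul, orth (by have := mem_range.1 hj; omega) (by omega), if_neg (by omega), zero_mul]
  · intro h
    exact absurd (mem_range.2 (by omega)) h

theorem mom0 {k : ℕ} (hk : 4 * k < N) : ∑ a : ZMod N, (zz a).re ^ (2 * k) = N * bb k := by
  have := (mom hk).mom 1 norm_one k le_rfl
  rw [ZMod.card] at this
  rw [bb, ← mul_div_assoc, ← this, sum_div]
  refine sum_congr rfl fun a _ => ?_
  have h := zz_norm a
  rw [← sq_eq_sq₀ (norm_nonneg _) zero_le_one, Complex.sq_norm, Complex.normSq_apply] at h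
  rw [pow_mul, pow_mul, ← div_pow, Complex.sq_norm, Complex.normSq_apply]
  refine congrArg (· ^ k) ?_
  simp only [sq, Complex.add_re, Complex.add_im, Complex.mul_re, Complex.mul_im, Complex.one_re,
    Complex.one_im]
  linear_combination (-((zz a).re ^ 2 + (zz a).im ^ 2 - 1) / 4) * h

theorem mom1 {i j : ℕ} (h : Even (i + j)) : 0 ≤ ∑ a : ZMod N, (zz a).im ^ i * (zz a).re ^ j := by
  rcases i.even_or_odd with c | c
  · exact sum_nonneg fun a _ => mul_nonneg (c.pow_nonneg _) (((Nat.even_add.1 h).1 c).pow_nonneg _)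
  · have := Equiv.sum_comp (Equiv.neg (ZMod N)) fun a => (zz a).im ^ i * (zz a).re ^ j
    simp only [Equiv.neg_apply, zz_neg, Complex.conj_im, Complex.conj_re, c.neg_pow, neg_mul,
      sum_neg_distrib] at this
    linarith

end Roots

variable {V : Type} [Fintype V] [LinearOrder V] (G : SimpleGraph V) [DecidableRel G.Adj]

omit [DecidableRel G.Adj] in
theorem pe {M : Type} [CommMonoid M] (H : Finset G.edgeSet) (f : V → M) :
    ∏ e ∈ H, ∏ v ∈ e.1.toFinset, f v = ∏ v, f v ^ #{e ∈ H | v ∈ e.1} := by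
  rw [prod_comm' (s' := fun v => {e ∈ H | v ∈ e.1}) (t' := univ) fun e v => by simp]
  simp only [prod_const]

theorem dg (v : V) : #{e : G.edgeSet | v ∈ e.1} = G.degree v := by
  rw [← G.card_incidenceFinset_eq_degree, ← card_image_of_injective _ Subtype.val_injective]
  refine congrArg _ (Finset.ext fun e => ?_)
  simp [SimpleGraph.incidenceSet, and_comm]

theorem es (φ : Sym2 V → ℝ) :
    ∑ e : G.edgeSet, φ e = ∑ v, ∑ u ∈ G.neighborFinset v with u < v, φ s(u, v) := by
  rw [← sum_subtype G.edgeFinset fun _ => G.mem_edgeFinset, sum_sigma']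
  refine (sum_nbij (fun p : (_ : V) × V => s(p.2, p.1)) (fun p hp => ?_) (fun p hp q hq h => ?_) (fun e he => ?_)
    fun _ _ => rfl).symm
  · simp only [mem_sigma, mem_filter, SimpleGraph.mem_neighborFinset] at hp
    simpa using hp.2.1.symm
  · simp only [mem_coe, mem_sigma, mem_filter] at hp hq
    rcases Sym2.eq_iff.1 h with h | h
    · exact Sigma.ext h.2 (heq_of_eq h.1)
    · exact absurd (h.1 ▸ h.2 ▸ hp.2.2) hq.2.2.not_gt
  · induction e with
    | h u v =>
      have h : G.Adj u v := by simpa using he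
      rcases lt_or_gt_of_ne h.ne with c | c
      · exact ⟨⟨v, u⟩, by simp [c, h.symm], rfl⟩
      · exact ⟨⟨u, v⟩, by simp [c, h], Sym2.eq_swap⟩

/-- the cosine of the angle along an edge -/
noncomputable def gg (z : V → ℂ) (e : Sym2 V) : ℝ :=
  ∏ v ∈ e.toFinset, (z v).im + ∏ v ∈ e.toFinset, (z v).re

theorem four {N : ℕ} [NeZero N] (h1 : 2 * Fintype.card G.edgeSet < N) :
    (N : ℝ) ^ Fintype.card V * eo G =
      2 ^ Fintype.card G.edgeSet * ∑ θ : V → ZMod N, ∏ e : G.edgeSet, gg (zz ∘ θ) e := by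
  refine Complex.ofReal_injective ?_
  have a : ∀ θ : V → ZMod N, ((2 ^ Fintype.card G.edgeSet * ∏ e : G.edgeSet, gg (zz ∘ θ) e : ℝ) : ℂ) =
      ∑ t ∈ Fintype.piFinset fun e : G.edgeSet => e.1.toFinset,
        ∏ v, zz (θ v) ^ (2 * #{e | t e = v}) * conj (zz (θ v)) ^ #{e : G.edgeSet | v ∈ e.1} := by
    intro θ
    simp only [prod_mul_distrib, pow_mul, ← sum_mul, ← pe]
    simp only [← prod_const, prod_fiberwise' univ _ fun v => zz (θ v) ^ 2]
    rw [← prod_univ_sum (f := fun _ v => zz (θ v) ^ 2), ← card_univ, ← prod_const,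
      ← prod_mul_distrib, ← prod_mul_distrib, Complex.ofReal_prod]
    refine prod_congr rfl fun ⟨e, he⟩ _ => ?_
    induction e with
    | h u v =>
      have h : u ≠ v := (G.mem_edgeSet.1 he).ne
      have e : ∀ a : ZMod N, (zz a).re ^ 2 + (zz a).im ^ 2 = 1 := fun a => by
        rw [sq, sq, ← Complex.normSq_apply, ← Complex.sq_norm, zz_norm, one_pow]
      simp only [gg, Sym2.toFinset_mk_eq, prod_pair h, sum_pair h, comp]
      refine Complex.ext ?_ ?_ <;> simp only [Complex.ofReal_re, Complex.ofReal_im, sq, Complex.add_re,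
        Complex.add_im, Complex.mul_re, Complex.mul_im, Complex.conj_re, Complex.conj_im]
      · linear_combination (-((zz (θ u)).re * (zz (θ v)).re + (zz (θ u)).im * (zz (θ v)).im)) *
          (e (θ u) + e (θ v))
      · linear_combination ((zz (θ u)).re * (zz (θ v)).im - (zz (θ u)).im * (zz (θ v)).re) *
          (e (θ u) - e (θ v))
  rw [mul_sum, Complex.ofReal_sum, sum_congr rfl fun θ _ => a θ, sum_comm]
  have b : ∀ s : Finset G.edgeSet, #s ≤ Fintype.card G.edgeSet := card_le_univ
  have c := fun i j : V → ℕ =>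
    Fintype.prod_sum fun v (a : ZMod N) => zz a ^ (2 * i v) * conj (zz a) ^ j v
  simp only [← c, orth ((Nat.mul_le_mul_left 2 (b _)).trans_lt h1) ((b _).trans_lt (by omega)), prod_ite_zero,
    prod_const, ← sum_filter, sum_const, nsmul_eq_mul, card_univ]
  push_cast
  rw [mul_comm, eo, Nat.card_eq_fintype_card, Fintype.card_subtype]
  refine congrArg (fun s : Finset _ => (#s : ℂ) * _) (Finset.ext fun t => ?_)
  simp only [mem_filter, mem_univ, true_and, Fintype.mem_piFinset, Sym2.mem_toFinset,
    Nat.card_eq_fintype_card, Fintype.card_subtype, true_imp_iff]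
  refine and_congr_right fun h => forall_congr' fun v => ?_
  have := card_filter_add_card_filter_not (s := {e : G.edgeSet | v ∈ e.1}) fun e => t e = v
  rw [filter_filter, filter_filter, filter_congr (q := fun e => t e = v) fun e _ =>
    ⟨And.right, fun c => ⟨c ▸ h e, c⟩⟩] at this
  simp only [ne_eq]
  omega

omit [LinearOrder V] in
theorem paul (ev : ∀ v, Even (G.degree v)) :
    pauling G = 2 ^ Fintype.card G.edgeSet * ∏ v, bb (G.degree v / 2) := by
  have : Fintype.card G.edgeSet = ∑ v, G.degree v / 2 := by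
    refine Nat.eq_of_mul_eq_mul_left two_pos ?_
    rw [SimpleGraph.card_edgeSet, mul_sum,
      sum_congr rfl fun v _ => Nat.two_mul_div_two_of_even (ev v), G.sum_degrees_eq_twice_card_edges]
  rw [this, ← prod_pow_eq_pow_sum, ← prod_mul_distrib]
  refine prod_congr rfl fun v _ => ?_
  rw [bb, Nat.centralBinom, Nat.two_mul_div_two_of_even (ev v), show (4 : ℝ) = 2 * 2 by norm_num,
    mul_pow]
  field_simp

theorem both (ev : ∀ v, Even (G.degree v)) (ho : ∀ w v, w < v → G.degree v ≤ G.degree w) :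
    pauling G ≤ eo G ∧ eo G ≤ pauling G *
      exp (∑ v, (log (G.degree v + 1) + 3 * 10 ^ 10) / (G.degree v + 1)) := by
  obtain ⟨N, _, h1, h2⟩ : ∃ (N : ℕ) (_ : NeZero N), 2 * Fintype.card G.edgeSet < N ∧
      4 * Fintype.card V < N := ⟨2 * Fintype.card G.edgeSet + 4 * Fintype.card V + 1, inferInstance,
    by omega, by omega⟩
  have hK : ∀ v, G.degree v / 2 ≤ Fintype.card V := fun v => by
    have := G.degree_lt_card_verts v
    omega
  have N0 : (0 : ℝ) < N ^ Fintype.card V := pow_pos (by exact_mod_cast NeZero.pos N) _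
  constructor <;> refine le_of_mul_le_mul_left ?_ N0 <;> rw [four G h1, paul G ev]
  · rw [mul_left_comm]
    refine mul_le_mul_of_nonneg_left ?_ (by positivity)
    simp only [gg, prod_add, pe, ← prod_mul_distrib, comp]
    rw [sum_comm]
    have c := fun i j : V → ℕ =>
      Fintype.prod_sum fun v (a : ZMod N) => (zz a).im ^ i v * (zz a).re ^ j v
    simp only [← c]
    refine le_trans (le_of_eq ?_) (single_le_sum (fun H _ => prod_nonneg fun v _ => mom1 ?_)
      (empty_mem_powerset _))
    · rw [← card_univ, ← prod_const, ← prod_mul_distrib]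
      refine prod_congr rfl fun v _ => ?_
      rw [← mom0 (by have := hK v; omega), Nat.two_mul_div_two_of_even (ev v)]
      simp [dg]
    · rw [← card_union_of_disjoint (disjoint_filter_filter disjoint_sdiff), ← filter_union,
        union_sdiff_of_subset (subset_univ _), dg]
      exact ev v
  · rw [mul_assoc, mul_left_comm]
    refine mul_le_mul_of_nonneg_left (le_trans (sum_le_sum fun θ _ => ?_)
      ((xy G (mom h2) hK ev ho).trans_eq (by simp))) (by positivity)
    refine (le_abs_self _).trans ((abs_prod _ _).trans_le ((prod_le_prod (fun _ _ => abs_nonneg _)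
      (g := fun e : G.edgeSet => exp (-((1 - gg (zz ∘ θ) e ^ 2) / 2))) fun e _ => ?_).trans_eq ?_))
    · refine abs_le_of_sq_le_sq' ?_ (exp_pos _).le |> abs_le.2
      rw [← exp_nat_mul]
      exact le_trans (by linarith) ((add_one_le_exp (gg (zz ∘ θ) e ^ 2 - 1)).trans_eq
        (congrArg _ (by push_cast; ring)))
    · rw [← exp_sum, sum_neg_distrib, es G fun e => (1 - gg (zz ∘ θ) e ^ 2) / 2]
      refine congrArg (fun t => exp (-t)) (sum_congr rfl fun v _ => sum_congr rfl fun u hu => ?_)
      have h := (mem_filter.1 hu).2.ne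
      have e : ∀ a : ZMod N, (zz a).re ^ 2 + (zz a).im ^ 2 = 1 := fun a => by
        rw [sq, sq, ← Complex.normSq_apply, ← Complex.sq_norm, zz_norm, one_pow]
      simp only [gg, Sym2.toFinset_mk_eq, prod_pair h, comp, Complex.inner, sq, Complex.mul_re,
        Complex.mul_im, Complex.conj_re, Complex.conj_im]
      linear_combination (-((zz (θ v)).re ^ 2 + (zz (θ v)).im ^ 2) / 4) * e (θ u) - 1 / 4 * e (θ v)

omit [LinearOrder V] in
theorem main (ev : ∀ v, Even (G.degree v)) : pauling G ≤ eo G ∧ eo G ≤ pauling G *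
    exp (∑ v, (log (G.degree v + 1) + 3 * 10 ^ 10) / (G.degree v + 1)) := by
  let _ : LinearOrder V := LinearOrder.lift'
    (fun v => toLex (OrderDual.toDual (G.degree v), Fintype.equivFin V v))
    fun u v h => (Fintype.equivFin V).injective (congrArg (fun p => (ofLex p).2) h)
  exact both G ev fun w v h => by
    rcases Prod.Lex.toLex_lt_toLex.1 h with h | h
    · exact le_of_lt h
    · exact (OrderDual.toDual.injective h.1).ge

end Pool.Agent.MP_7c8df0_mp.H36
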