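import Mathlib

/-! The average over one vertex. -/

namespace Pool.Agent.MP_7c8df0_mp.H36

open Finset Real

/-- the probability that `2k` fair signs are balanced -/
noncomputable def bb (k : ℕ) : ℝ := k.centralBinom / 4 ^ k

/-- the size of the error term -/
noncomputable def LL (d : ℝ) : ℝ := log (d + 1) / d

theorem bb_pos (k : ℕ) : 0 < bb k := div_pos (by exact_mod_cast k.centralBinom_pos) (by positivity)

theorem bb_mono : Monotone fun k : ℕ => (2 * k + 1 : ℝ) * bb k := by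
  refine monotone_nat_of_le_succ fun k => ?_
  have h : ((k + 1 : ℝ) * (k + 1).centralBinom) = 2 * (2 * k + 1) * k.centralBinom := by
    exact_mod_cast k.succ_mul_centralBinom_succ
  have p : (0 : ℝ) < (k + 1).centralBinom := by exact_mod_cast (k + 1).centralBinom_pos
  rw [bb, bb, pow_succ, ← mul_div_assoc, ← mul_div_assoc, div_le_div_iff₀ (by positivity)
    (by positivity), mul_comm _ (4 : ℝ), ← mul_assoc]
  push_cast
  exact mul_le_mul_of_nonneg_right (by nlinarith) (by positivity)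

theorem bb_ge (k : ℕ) : 1 ≤ (2 * k + 1 : ℝ) * bb k := by simpa [bb] using bb_mono k.zero_le

theorem bb_sq : Monotone fun k : ℕ => (4 * k + 1 : ℝ) * bb k ^ 2 := by
  refine monotone_nat_of_le_succ fun k => ?_
  have h : ((k + 1 : ℝ) * (k + 1).centralBinom) = 2 * (2 * k + 1) * k.centralBinom := by
    exact_mod_cast k.succ_mul_centralBinom_succ
  have e : bb (k + 1) = (2 * k + 1) / (2 * k + 2) * bb k := by
    rw [bb, bb, pow_succ]
    field_simp
    linear_combination 2 * h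
  rw [e, mul_pow, ← mul_assoc, div_pow, ← mul_div_assoc]
  refine mul_le_mul_of_nonneg_right ?_ (sq_nonneg _)
  rw [le_div_iff₀ (by positivity)]
  push_cast
  nlinarith

theorem bb_le {m k : ℕ} (h : m ≤ k) :
    bb m ≤ bb k * exp ((log (4 * k + 1) - log (4 * m + 1)) / 2) := by
  refine (pow_le_pow_iff_left₀ (bb_pos m).le (mul_pos (bb_pos k) (exp_pos _)).le two_ne_zero).1 ?_
  rw [mul_pow, ← exp_nat_mul, Nat.cast_ofNat, mul_div_cancel₀ _ two_ne_zero, exp_sub,
    exp_log (by positivity), exp_log (by positivity), ← mul_div_assoc, le_div_iff₀' (by positivity),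
    mul_comm (bb k ^ 2)]
  exact bb_sq h

theorem LL_nonneg {d : ℝ} (h : 0 ≤ d) : 0 ≤ LL d := div_nonneg (log_nonneg (by linarith)) h

theorem LL_anti {a b : ℝ} (ha : 0 < a) (h : a ≤ b) : LL b ≤ LL a := by
  have hb := ha.trans_le h
  have := log_le_log (by positivity) (rpow_one_add_le_one_add_mul_self (s := b) (by linarith)
    (div_pos ha hb).le ((div_le_one hb).2 h))
  rw [log_rpow (by positivity), div_mul_cancel₀ _ hb.ne', div_mul_eq_mul_div, mul_div_assoc,
    ← le_div_iff₀' ha, add_comm, add_comm 1] at this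
  exact this

theorem LL_le {d : ℝ} (h : 0 ≤ d) : LL d ≤ 1 :=
  div_le_one_of_le₀ ((log_le_sub_one_of_pos (by linarith)).trans (by linarith)) h

theorem LL_mul {d : ℝ} (h : 0 ≤ d) : LL d * d = log (d + 1) := by
  rcases h.eq_or_lt with rfl | h
  · simp
  · exact div_mul_cancel₀ _ h.ne'

theorem LL_small {d c : ℝ} (h : 2 ≤ d) (hc : 0 < c) (h' : 1 / c ≤ LL d) : d ≤ 6 * c ^ 2 := by
  have a := log_le_rpow_div (x := d + 1) (by linarith) one_half_pos
  rw [← sqrt_eq_rpow, ← LL_mul (by linarith)] at a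
  have b := sq_sqrt (show 0 ≤ d + 1 by linarith)
  rw [div_le_iff₀ hc] at h'
  have e : d ≤ 2 * c * √(d + 1) := by nlinarith
  have f := mul_self_le_mul_self (by linarith) e
  nlinarith [sq_nonneg c]

theorem pt {y δ R : ℝ} {m : ℕ} (h0 : 0 ≤ y) (h1 : y ≤ 1) (hδ : δ ≤ 1 / 2) (hR : 0 ≤ R)
    (hm : m ≤ (1 - δ) * R / 2) : exp (-(R * y / 2)) ≤ (1 - y) ^ m + exp (-(R * δ / 2)) := by
  rcases le_total y δ with c | c
  · refine le_add_of_le_of_nonneg ?_ (exp_pos _).le
    have a : 0 < 1 - y := by linarith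
    have b := one_sub_inv_le_log_of_pos a
    rw [← exp_log (pow_pos a m), log_pow, exp_le_exp]
    refine le_trans ?_ (mul_le_mul_of_nonneg_left b m.cast_nonneg)
    have : 1 - (1 - y)⁻¹ = -(y / (1 - y)) := by
      field_simp
      ring
    rw [this, mul_neg, neg_le_neg_iff, ← mul_div_assoc, div_le_iff₀ a]
    nlinarith [mul_le_mul_of_nonneg_right hm h0, mul_nonneg (mul_nonneg hR h0) (sub_nonneg.2 c)]
  · refine le_add_of_nonneg_of_le (pow_nonneg (by linarith) _) (exp_le_exp.2 ?_)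
    nlinarith

theorem pt2 {y : ℝ} {m j : ℕ} (h0 : 0 ≤ y) (h1 : y ≤ 1) (hm : 2 ≤ m) (hj : 4 * j + 1 ≤ m) :
    exp (-(m * y)) ≤ (1 - y) ^ m + 4 * m / (m - 1) ^ 2 * ((1 - y) ^ j + exp (-((m - 1) / 4))) := by
  have m2 : (2 : ℝ) ≤ m := by exact_mod_cast hm
  have hj' : (4 * j + 1 : ℝ) ≤ m := by exact_mod_cast hj
  have a := pt (δ := 1 / 2) (R := m - 1) (m := j) h0 h1 le_rfl (by linarith) (by linarith)
  have b := abs_pow_sub_pow_le (a := exp (-y)) (b := 1 - y) (n := m)
  have c := add_one_le_exp (-y)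
  have d : exp (-y) ≤ 1 - y + y ^ 2 / 2 := by
    rw [exp_neg, inv_le_iff_one_le_mul₀ (exp_pos _)]
    refine le_trans ?_ (mul_le_mul_of_nonneg_left (quadratic_le_exp_of_nonneg h0) (by nlinarith))
    nlinarith [sq_nonneg (y ^ 2)]
  rw [abs_of_nonneg (a := 1 - y) (by linarith), abs_of_pos (exp_pos _), max_eq_left (by linarith),
    abs_of_nonneg (a := exp (-y) - _) (by linarith), ← exp_nat_mul, ← exp_nat_mul,
    Nat.cast_pred (by omega), mul_neg] at b
  have e := quadratic_le_exp_of_nonneg (x := (m - 1) * y / 2) (by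
    have : (0 : ℝ) ≤ m - 1 := by linarith
    positivity)
  have f : exp ((m - 1) * -y) * exp ((m - 1) * y / 2) = exp (-((m - 1) * y / 2)) := by
    rw [← exp_add]
    ring_nf
  have g : y ^ 2 / 2 * exp ((m - 1) * -y) ≤ 4 / (m - 1) ^ 2 * exp (-((m - 1) * y / 2)) := by
    rw [← f, mul_comm (exp _), ← mul_assoc, div_mul_eq_mul_div 4]
    refine mul_le_mul_of_nonneg_right ((le_div_iff₀ (pow_pos (by linarith) 2)).2 ?_) (exp_pos _).le
    nlinarith [mul_nonneg (show (0 : ℝ) ≤ m - 1 by linarith) h0]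
  rw [show (m - 1 : ℝ) * (1 / 2) / 2 = (m - 1) / 4 by ring] at a
  have i := mul_le_mul_of_nonneg_left (g.trans (mul_le_mul_of_nonneg_left a (by positivity)))
    m.cast_nonneg
  have k := mul_le_mul_of_nonneg_right (mul_le_mul_of_nonneg_right
    (show exp (-y) - (1 - y) ≤ y ^ 2 / 2 by linarith) m.cast_nonneg) (exp_pos ((m - 1) * -y)).le
  have l := (le_abs_self _).trans b
  ring_nf at i k l ⊢
  linarith

variable {E A : Type} [NormedAddCommGroup E] [InnerProductSpace ℝ E] [Fintype A]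

/-- unit vectors with the moments of the uniform measure on a circle -/
structure Mom (x : A → E) (K : ℕ) : Prop where
  one : ∀ a, ‖x a‖ = 1
  mom : ∀ u, ‖u‖ = 1 → ∀ m ≤ K, ∑ a, ‖x a + u‖ ^ (2 * m) = Fintype.card A * m.centralBinom

theorem ov1 {x : A → E} {K k : ℕ} (hx : Mom x K) (hk : k ≤ K) {R : ℝ} (h1 : 0 ≤ R)
    (h2 : R ≤ 2 * k) {u : E} (hu : ‖u‖ = 1) :
    ∑ a, exp (-(R * (1 - inner ℝ u (x a)) / 4)) ≤ Fintype.card A *
      (bb k * exp ((log (2 * k + 4) - log (R + 5)) / 2 + 400 / (R + 1))) := by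
  have hy : ∀ a, 0 ≤ (1 - inner ℝ u (x a)) / 2 ∧ (1 - inner ℝ u (x a)) / 2 ≤ 1 := fun a => by
    have e := abs_le.1 (abs_real_inner_le_norm u (x a))
    rw [hu, hx.one] at e
    constructor <;> linarith
  have hm : ∀ m ≤ k, ∑ a, (1 - (1 - inner ℝ u (x a)) / 2) ^ m = Fintype.card A * bb m := by
    intro m hm
    rw [bb, ← mul_div_assoc, ← hx.mom u hu m (hm.trans hk), sum_div]
    refine sum_congr rfl fun a _ => ?_
    rw [pow_mul, ← div_pow, norm_add_sq_real, hu, hx.one, real_inner_comm u]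
    ring
  have key : ∀ (m : ℕ) (c : ℝ), m ≤ k → c + (2 * R + 10) / (4 * m + 1) ≤ 800 / (R + 1) + 1 →
      bb m * exp (c / 2) ≤ bb k * exp ((log (2 * k + 4) - log (R + 5)) / 2 + 400 / (R + 1)) := by
    intro m c hm hc
    refine (mul_le_mul_of_nonneg_right (bb_le hm) (exp_pos _).le).trans ?_
    rw [mul_assoc, ← exp_add]
    refine mul_le_mul_of_nonneg_left (exp_le_exp.2 ?_) (bb_pos k).le
    have a := log_le_sub_one_of_pos (x := 2 * (R + 5) / (4 * m + 1)) (by positivity)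
    have b := log_le_log (x := 4 * k + 1) (y := 2 * (2 * k + 4)) (by positivity) (by linarith)
    rw [log_div (by positivity) (by positivity)] at a
    rw [log_mul two_ne_zero (by positivity)] at a b
    ring_nf at a b hc ⊢
    linarith
  rcases le_total R 10 with c | c
  · refine le_trans ?_ (mul_le_mul_of_nonneg_left (key 0 0 k.zero_le ?_) (by positivity))
    · simpa [bb] using sum_le_card_nsmul univ _ 1 fun a _ =>
        exp_le_one_iff.2 (show -(R * (1 - inner ℝ u (x a)) / 4) ≤ 0 by nlinarith [(hy a).1])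
    · have : (30 : ℝ) ≤ 800 / (R + 1) := by
        rw [le_div_iff₀ (by positivity)]
        linarith
      norm_num
      linarith
  obtain ⟨m, m1, m2⟩ : ∃ m : ℕ, m ≤ R / 2 ∧ R / 2 < m + 1 :=
    ⟨_, Nat.floor_le (by positivity), Nat.lt_floor_add_one _⟩
  have mk : m ≤ k := by exact_mod_cast (by linarith : (m : ℝ) ≤ k)
  have m5 : 5 ≤ m := Nat.succ_le_of_lt (by exact_mod_cast (by linarith : (4 : ℝ) < m))
  have m5' : (5 : ℝ) ≤ m := by exact_mod_cast m5
  obtain ⟨j, j1, j2⟩ : ∃ j : ℕ, 4 * j + 1 ≤ m ∧ m ≤ 4 * j + 4 := ⟨(m - 1) / 4, by omega, by omega⟩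
  have j2' : (m : ℝ) ≤ 4 * j + 4 := by exact_mod_cast j2
  have bm := bb_pos m
  have t1 : bb j ≤ 11 * bb m := by
    refine le_of_mul_le_mul_left ((bb_mono (by omega : j ≤ m)).trans ?_) (by positivity)
    nlinarith
  have t2 : exp (-((m - 1 : ℝ) / 4)) ≤ 8 * bb m := by
    rw [exp_neg, inv_le_iff_one_le_mul₀ (exp_pos _)]
    nlinarith [bb_ge m, mul_le_mul_of_nonneg_left (add_one_le_exp ((m - 1 : ℝ) / 4)) bm.le]
  have t3 : (4 * m / (m - 1) ^ 2 : ℝ) ≤ 7 / m := by
    rw [div_le_div_iff₀ (pow_pos (by linarith) 2) (by positivity)]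
    nlinarith
  refine (sum_le_sum fun a _ => (exp_le_exp.2 (by nlinarith [(hy a).1])).trans
    (pt2 (hy a).1 (hy a).2 (by omega) j1)).trans ?_
  rw [sum_add_distrib, ← mul_sum, sum_add_distrib, hm m mk, hm j (by omega), sum_const, card_univ,
    nsmul_eq_mul, ← mul_add, mul_left_comm, ← mul_add]
  refine mul_le_mul_of_nonneg_left (le_trans ?_ (key m (266 / m) mk ?_)) (by positivity)
  · have a := mul_le_mul t3 (add_le_add t1 t2) (add_pos (bb_pos j) (exp_pos _)).le (by positivity)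
    have b := mul_le_mul_of_nonneg_left (add_one_le_exp (266 / m / 2 : ℝ)) bm.le
    ring_nf at a b ⊢
    linarith
  · have a : (266 / m : ℝ) ≤ 750 / (R + 1) := by
      rw [div_le_div_iff₀ (by positivity) (by positivity)]
      linarith
    have b : (2 * R + 10) / (4 * m + 1) ≤ 50 / (R + 1) + 1 := by
      rw [div_add_one (by positivity), div_le_div_iff₀ (by positivity) (by positivity)]
      nlinarith
    ring_nf at a b ⊢
    linarith

theorem ov [Nonempty A] {x : A → E} {K k : ℕ} (hx : Mom x K) (hk : k ≤ K) {R : ℝ} {H : E}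
    (h1 : ‖H‖ ≤ R) (h2 : R ≤ 2 * k) : ∑ a, exp (-((R - inner ℝ H (x a)) / 4)) ≤ Fintype.card A *
      (bb k * exp ((log (2 * k + 4) - log (R + 5)) / 2 + 400 / (R + 1))) := by
  have R0 := (norm_nonneg _).trans h1
  obtain ⟨u, hu, e⟩ : ∃ u : E, ‖u‖ = 1 ∧ H = ‖H‖ • u := by
    by_cases c : H = 0
    · exact ⟨x (Classical.arbitrary A), hx.one _, by simp [c]⟩
    · exact ⟨‖H‖⁻¹ • H, norm_smul_inv_norm c, by rw [smul_inv_smul₀ (norm_ne_zero_iff.2 c)]⟩
  obtain ⟨t, t0, t1, ht⟩ : ∃ t : ℝ, 0 ≤ t ∧ t ≤ 1 ∧ ‖H‖ = t * R :=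
    ⟨‖H‖ / R, by positivity, div_le_one_of_le₀ h1 R0, by
      rcases R0.eq_or_lt with rfl | c
      · simpa using h1
      · rw [div_mul_cancel₀ _ c.ne']⟩
  have p : 0 ≤ (1 + t) / 2 := by positivity
  have q : 0 ≤ (1 - t) / 2 := by linarith
  have r : (1 + t) / 2 + (1 - t) / 2 = 1 := by ring
  have := add_le_add (mul_le_mul_of_nonneg_left (ov1 hx hk R0 h2 hu) p)
    (mul_le_mul_of_nonneg_left (ov1 hx hk R0 h2 ((norm_neg u).trans hu)) q)
  rw [← add_mul, r, one_mul, mul_sum, mul_sum, ← sum_add_distrib] at this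
  refine (sum_le_sum fun a _ => le_trans (le_of_eq (congrArg exp ?_))
    (convexOn_exp.2 trivial trivial p q r)).trans this
  rw [e, inner_neg_left, real_inner_smul_left, ht, smul_eq_mul, smul_eq_mul]
  ring

end Pool.Agent.MP_7c8df0_mp.H36
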